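import Mathlib
import Pool.Agent.H439.TB.Main
import Pool.Agent.H439.TB.Rel

/-!
# Extending total colourings of distance-3 matchings: all bipartite graphs, also from lists
-/

set_option autoImplicit false

namespace Pool.Agent.Results.MP_db9399_co.AllBipartite

open Pool.Agent.R61.TotExt Pool.Agent.H439.TB

/-- `H` is a distance-3 matching of `G`: a subgraph in which every vertex has at most one
neighbour, and ends of different edges of `H` are at distance at least 3 in `G`. -/
def DistThree {V : Type} (G H : SimpleGraph V) : Prop :=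
  H ≤ G ∧ (∀ u v w, H.Adj u v → H.Adj u w → v = w) ∧
    ∀ u v x y, H.Adj u v → H.Adj x y → s(u, v) ≠ s(x, y) → 3 ≤ G.edist u x

/-- Every edge of `B` has exactly one end in `X`. -/
def Bip {V : Type} (B : SimpleGraph V) (X : Set V) : Prop :=
  ∀ u v, B.Adj u v → (u ∈ X ↔ v ∉ X)

/-- All graphs are finite, `H` is a distance-3 matching of `G`, and all degrees of `G` are at most
`Δ`.

(1) If `G` is bipartite, then every total colouring `(f0, g0)` of `H` with `Δ + 2` colours extends
to a total colouring `(f, g)` of `G` with `Δ + 2` colours.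

(2) The same holds if `G` has a bipartite subgraph `B` and the pairs of vertices have weights `r`
such that every edge `uv` outside `B` and `H` shares an end with fewer than `Δ` edges of `G` which
are in `B`, in `H` or of weight at most `r uv`.  (For `B = G` this is (1); for constant `r` it
says that `B` contains all edges `uv` with `deg u + deg v ≥ Δ + 2`.)

(3) If `G` is bipartite, all vertices and edges of `G` have lists `LV`, `LE` of at least `Δ + 2`
colours, and `(f0, g0)` is any total colouring of `H` (its colours need not be in the lists), then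
it extends to a total colouring of `G` in which the vertices and edges outside `H` have colours
from their lists. -/
theorem result :
    (∀ (V : Type) [Fintype V] (G H : SimpleGraph V) (Δ : ℕ) (X : Set V), Bip G X →
      (∀ v, (G.neighborSet v).ncard ≤ Δ) → DistThree G H →
      ∀ (f0 : V → Fin (Δ + 2)) (g0 : Sym2 V → Fin (Δ + 2)), IsTotal H f0 g0 →
        ∃ (f : V → Fin (Δ + 2)) (g : Sym2 V → Fin (Δ + 2)), IsTotal G f g ∧
          ∀ u v, H.Adj u v → f u = f0 u ∧ g s(u, v) = g0 s(u, v)) ∧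
    (∀ (V : Type) [Fintype V] (G B H : SimpleGraph V) (Δ : ℕ) (X : Set V), B ≤ G → Bip B X →
      (∀ v, (G.neighborSet v).ncard ≤ Δ) → DistThree G H →
      ∀ r : Sym2 V → ℕ,
        (∀ u v, G.Adj u v → ¬ B.Adj u v → ¬ H.Adj u v →
          {w | w ≠ v ∧ G.Adj u w ∧ (B.Adj u w ∨ H.Adj u w ∨ r s(u, w) ≤ r s(u, v))}.ncard +
          {w | w ≠ u ∧ G.Adj v w ∧ (B.Adj v w ∨ H.Adj v w ∨ r s(v, w) ≤ r s(u, v))}.ncard
            < Δ) →
      ∀ (f0 : V → Fin (Δ + 2)) (g0 : Sym2 V → Fin (Δ + 2)), IsTotal H f0 g0 →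
        ∃ (f : V → Fin (Δ + 2)) (g : Sym2 V → Fin (Δ + 2)), IsTotal G f g ∧
          ∀ u v, H.Adj u v → f u = f0 u ∧ g s(u, v) = g0 s(u, v)) ∧
    (∀ (V : Type) [Fintype V] (G H : SimpleGraph V) (Δ : ℕ) (X : Set V), Bip G X →
      (∀ v, (G.neighborSet v).ncard ≤ Δ) → DistThree G H →
      ∀ (LV : V → Finset ℕ) (LE : Sym2 V → Finset ℕ), (∀ v, Δ + 2 ≤ (LV v).card) →
        (∀ u v, G.Adj u v → Δ + 2 ≤ (LE s(u, v)).card) →
      ∀ (f0 : V → ℕ) (g0 : Sym2 V → ℕ), IsTot H f0 g0 →
        ∃ (f : V → ℕ) (g : Sym2 V → ℕ), IsTot G f g ∧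
          (∀ u v, H.Adj u v → f u = f0 u ∧ g s(u, v) = g0 s(u, v)) ∧
          (∀ v, (∀ w, ¬ H.Adj v w) → f v ∈ LV v) ∧
          ∀ u v, G.Adj u v → ¬ H.Adj u v → g s(u, v) ∈ LE s(u, v)) := by
  refine ⟨?_, ?_, ?_⟩
  · intro V _ G H Δ X hX hΔ hH f0 g0 h0
    exact main_fin G H Δ (fun v => v ∈ X) hX hΔ hH.1 hH.2.1 hH.2.2 f0 g0 h0
  · intro V _ G B H Δ X hB hX hΔ hH r hr f0 g0 h0
    exact rel G B H Δ (fun v => v ∈ X) hB hX hΔ hH.1 hH.2.1 hH.2.2 r hr f0 g0 h0
  · intro V _ G H Δ X hX hΔ hH LV LE hLV hLE f0 g0 h0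
    exact main G H Δ (fun v => v ∈ X) hX hΔ hH.1 hH.2.1 hH.2.2 LV LE hLV hLE f0 g0 h0

end Pool.Agent.Results.MP_db9399_co.AllBipartite
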