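import Pool.Agent.H136TC.Main

/-!
# Extending total colourings of distance-3 matchings: all graphs with `3 Δ / 2 + 2` colours
-/

set_option autoImplicit false

namespace Pool.Agent.Results.MP_db9399_co.AllGraphs

open Pool.Agent.R61.TotExt Pool.Agent.H439.TB Pool.Agent.H136TC

/-- `H` is a distance-3 matching of `G`: a subgraph in which every vertex has at most one
neighbour, and ends of different edges of `H` are at distance at least 3 in `G`. -/
def DistThree {V : Type} (G H : SimpleGraph V) : Prop :=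
  H ≤ G ∧ (∀ u v w, H.Adj u v → H.Adj u w → v = w) ∧
    ∀ u v x y, H.Adj u v → H.Adj x y → s(u, v) ≠ s(x, y) → 3 ≤ G.edist u x

/-- `H` is an induced matching of `G`: a subgraph in which every vertex has at most one neighbour,
such that an edge of `G` with both ends on edges of `H` is an edge of `H`. -/
def Induced {V : Type} (G H : SimpleGraph V) : Prop :=
  H ≤ G ∧ (∀ u v w, H.Adj u v → H.Adj u w → v = w) ∧
    ∀ u v x y, G.Adj u v → H.Adj u x → H.Adj v y → H.Adj u v

/-- Every total colouring of `H` with `k` colours extends to a total colouring of `G` with `k`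
colours. -/
def Extends {V : Type} (G H : SimpleGraph V) (k : ℕ) : Prop :=
  ∀ (f0 : V → Fin k) (g0 : Sym2 V → Fin k), IsTotal H f0 g0 →
    ∃ (f : V → Fin k) (g : Sym2 V → Fin k), IsTotal G f g ∧
      ∀ u v, H.Adj u v → f u = f0 u ∧ g s(u, v) = g0 s(u, v)

/-- For all lists `LV` of the vertices and `LE` of the edges with at least `k` colours, every total
colouring of `H` (its colours need not be in the lists) extends to a total colouring of `G` in
which the vertices and edges outside `H` have colours from their lists. -/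
def ExtendsLists {V : Type} (G H : SimpleGraph V) (k : ℕ) : Prop :=
  ∀ (LV : V → Finset ℕ) (LE : Sym2 V → Finset ℕ), (∀ v, k ≤ (LV v).card) →
    (∀ u v, G.Adj u v → k ≤ (LE s(u, v)).card) →
    ∀ (f0 : V → ℕ) (g0 : Sym2 V → ℕ), IsTot H f0 g0 →
      ∃ (f : V → ℕ) (g : Sym2 V → ℕ), IsTot G f g ∧
        (∀ u v, H.Adj u v → f u = f0 u ∧ g s(u, v) = g0 s(u, v)) ∧
        (∀ v, (∀ w, ¬ H.Adj v w) → f v ∈ LV v) ∧
        ∀ u v, G.Adj u v → ¬ H.Adj u v → g s(u, v) ∈ LE s(u, v)

theorem DistThree.induced {V : Type} {G H : SimpleGraph V} (h : DistThree G H) : Induced G H := by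
  refine ⟨h.1, h.2.1, ?_⟩
  intro u v x y huv hx hy
  by_contra hn
  have hne : s(u, x) ≠ s(v, y) := by
    intro h
    rw [Sym2.eq_iff] at h
    rcases h with ⟨h1, h2⟩ | ⟨h1, h2⟩
    · exact huv.ne h1
    · subst h2
      exact hn hx
  have h3 := h.2.2 u x v y hx hy hne
  have h4 : G.edist u v ≤ 1 := by
    have := SimpleGraph.edist_le (SimpleGraph.Walk.cons huv SimpleGraph.Walk.nil)
    simpa using this
  have h5 : (3 : ℕ∞) ≤ 1 := h3.trans h4
  exact absurd h5 (by decide)

theorem Induced.hind {V : Type} {G H : SimpleGraph V} (h : Induced G H) :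
    ∀ u v, G.Adj u v → (∃ x, H.Adj u x) → (∃ y, H.Adj v y) → H.Adj u v := by
  rintro u v huv ⟨x, hx⟩ ⟨y, hy⟩
  exact h.2.2 u v x y huv hx hy

theorem to_nat {V : Type} {H : SimpleGraph V} {k : ℕ} {f0 : V → Fin k} {g0 : Sym2 V → Fin k}
    (h0 : IsTotal H f0 g0) : IsTot H (fun v => (f0 v).1) (fun z => (g0 z).1) :=
  ⟨fun u v h he => h0.1 u v h (Fin.ext he), fun u v w h h' hne he =>
    h0.2.1 u v w h h' hne (Fin.ext he), fun u v h he => h0.2.2 u v h (Fin.ext he)⟩

theorem to_fin {V : Type} {G H : SimpleGraph V} {k : ℕ} (f0 : V → Fin k) (g0 : Sym2 V → Fin k)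
    (h : ∃ (f : V → ℕ) (g : Sym2 V → ℕ), IsTot G f g ∧
      (∀ u v, H.Adj u v → f u = (f0 u).1 ∧ g s(u, v) = (g0 s(u, v)).1) ∧
      (∀ v, (∀ w, ¬ H.Adj v w) → f v < k) ∧
      ∀ u v, G.Adj u v → ¬ H.Adj u v → g s(u, v) ∈ Finset.range k) :
    ∃ (f : V → Fin k) (g : Sym2 V → Fin k), IsTotal G f g ∧
      ∀ u v, H.Adj u v → f u = f0 u ∧ g s(u, v) = g0 s(u, v) := by
  classical
  obtain ⟨f, g, ⟨h1, h2, h3⟩, h4, h5, h6⟩ := h
  have hf : ∀ v, f v < k := by
    intro v
    by_cases hv : ∃ x, H.Adj v x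
    · obtain ⟨x, hx⟩ := hv
      rw [(h4 v x hx).1]
      exact (f0 v).2
    · push Not at hv
      exact h5 v hv
  have hg : ∀ u v, G.Adj u v → g s(u, v) < k := by
    intro u v huv
    by_cases hH : H.Adj u v
    · rw [(h4 u v hH).2]
      exact (g0 _).2
    · exact Finset.mem_range.1 (h6 u v huv hH)
  refine ⟨fun v => ⟨f v, hf v⟩, fun z => if h : g z < k then ⟨g z, h⟩ else g0 z, ⟨?_, ?_, ?_⟩, ?_⟩
  · intro u v huv he
    exact h1 u v huv (Fin.mk.inj_iff.1 he)
  · intro u v w huv huw hne he
    simp only [dif_pos (hg u v huv), dif_pos (hg u w huw)] at he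
    exact h2 u v w huv huw hne (Fin.mk.inj_iff.1 he)
  · intro u v huv he
    simp only [dif_pos (hg u v huv)] at he
    exact h3 u v huv (Fin.mk.inj_iff.1 he)
  · intro u v huv
    obtain ⟨h7, h8⟩ := h4 u v huv
    refine ⟨Fin.ext h7, ?_⟩
    have h9 : g s(u, v) < k := by rw [h8]; exact (g0 _).2
    simp only [dif_pos h9]
    exact Fin.ext h8

theorem ExtendsLists.ext {V : Type} {G H : SimpleGraph V} {k : ℕ} (h : ExtendsLists G H k) :
    Extends G H k := by
  intro f0 g0 h0
  refine to_fin f0 g0 ?_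
  obtain ⟨f, g, h1, h4, h5, h6⟩ := h (fun _ => Finset.range k) (fun _ => Finset.range k)
    (fun _ => by rw [Finset.card_range]) (fun _ _ _ => by rw [Finset.card_range])
    (fun v => (f0 v).1) (fun z => (g0 z).1) (to_nat h0)
  exact ⟨f, g, h1, h4, fun v hv => Finset.mem_range.1 (h5 v hv), h6⟩

/-- All graphs are finite, all degrees of `G` are at most `Δ`.

(1) If `H` is an induced matching of `G` (in particular if `H` is a distance-3 matching) and `G` has a
bipartite subgraph `B` which contains no edge of `H` such that every vertex is on at most `s` edges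
of `G` outside `B`, then for `k ≥ Δ + s + 2` every total colouring of `H` with `k` colours extends to
`G`, also from lists of `k` colours.

(2) Since each `G` has such a subgraph `B` with `s = ⌈Δ / 2⌉`: for all graphs `G`, every total
colouring of an induced matching `H` with `k ≥ 3 Δ / 2 + 2` colours extends to `G`, also from lists of
`k` colours.

(3) Distance-3 matchings are induced matchings. -/
theorem result :
    (∀ (V : Type) [Fintype V] (G H B : SimpleGraph V) (X : Set V) (Δ s : ℕ),
      (∀ v, (G.neighborSet v).ncard ≤ Δ) → Induced G H → B ≤ G \ H →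
      (∀ u v, B.Adj u v → (u ∈ X ↔ v ∉ X)) → (∀ v, ((G \ B).neighborSet v).ncard ≤ s) →
      ∀ k : ℕ, Δ + s + 2 ≤ k → Extends G H k ∧ ExtendsLists G H k) ∧
    (∀ (V : Type) [Fintype V] (G H : SimpleGraph V) (Δ : ℕ),
      (∀ v, (G.neighborSet v).ncard ≤ Δ) → Induced G H →
      ∀ k : ℕ, 3 * Δ + 4 ≤ 2 * k → Extends G H k ∧ ExtendsLists G H k) ∧
    (∀ (V : Type) (G H : SimpleGraph V), DistThree G H → Induced G H) := by
  refine ⟨?_, ?_, fun V G H hH => hH.induced⟩
  · intro V _ G H B X Δ s hΔ hH hB hX hs k hk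
    have h : ExtendsLists G H k := by
      intro LV LE hLV hLE f0 g0 h0
      exact near G H B (fun v => v ∈ X) Δ s hΔ hH.1 hH.2.1 hH.hind hB hX hs LV LE
        (fun v => by have := hLV v; omega) (fun u v huv => by have := hLE u v huv; omega) f0 g0 h0
    exact ⟨h.ext, h⟩
  · intro V _ G H Δ hΔ hH k hk
    have h : ExtendsLists G H k := by
      intro LV LE hLV hLE f0 g0 h0
      exact all G H Δ hΔ hH.1 hH.2.1 hH.hind LV LE (fun v => by have := hLV v; omega)
        (fun u v huv => by have := hLE u v huv; omega) f0 g0 h0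
    exact ⟨h.ext, h⟩

end Pool.Agent.Results.MP_db9399_co.AllGraphs
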