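import Pool.Agent.H136TC.Plus

/-!
# Extending total colourings of distance-3 matchings with `Δ + 2` colours: bipartite graphs plus a
matching
-/

set_option autoImplicit false

namespace Pool.Agent.Results.MP_db9399_co.BipartitePlusMatching

open Pool.Agent.R61.TotExt Pool.Agent.H439.TB Pool.Agent.H136TC

/-- `H` is a distance-3 matching of `G`: a subgraph in which every vertex has at most one
neighbour, and ends of different edges of `H` are at distance at least 3 in `G`. -/
def DistThree {V : Type} (G H : SimpleGraph V) : Prop :=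
  H ≤ G ∧ (∀ u v w, H.Adj u v → H.Adj u w → v = w) ∧
    ∀ u v x y, H.Adj u v → H.Adj x y → s(u, v) ≠ s(x, y) → 3 ≤ G.edist u x

/-- Every total colouring of `H` with `k` colours extends to a total colouring of `G` with `k`
colours. -/
def Extends {V : Type} (G H : SimpleGraph V) (k : ℕ) : Prop :=
  ∀ (f0 : V → Fin k) (g0 : Sym2 V → Fin k), IsTotal H f0 g0 →
    ∃ (f : V → Fin k) (g : Sym2 V → Fin k), IsTotal G f g ∧
      ∀ u v, H.Adj u v → f u = f0 u ∧ g s(u, v) = g0 s(u, v)

/-- `x` is on an edge of `F` and adjacent in `G` to a vertex on an edge of `H`. -/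
def Near {V : Type} (G H F : SimpleGraph V) (x : V) : Prop :=
  (∃ a, F.Adj x a) ∧ ∃ u u', G.Adj x u ∧ H.Adj u u'

theorem DistThree.hind {V : Type} {G H : SimpleGraph V} (h : DistThree G H) :
    ∀ u v, G.Adj u v → (∃ x, H.Adj u x) → (∃ y, H.Adj v y) → H.Adj u v := by
  rintro u v huv ⟨x, hx⟩ ⟨y, hy⟩
  by_contra hn
  have hne : s(u, x) ≠ s(v, y) := by
    intro h
    rw [Sym2.eq_iff] at h
    rcases h with ⟨h1, h2⟩ | ⟨h1, h2⟩
    · exact huv.ne h1
    · subst h2
      exact hn hx
  have h3 := h.2.2 u x v y hx hy hne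
  have h4 : G.edist u v ≤ 1 := by
    have := SimpleGraph.edist_le (SimpleGraph.Walk.cons huv SimpleGraph.Walk.nil)
    simpa using this
  have h5 : (3 : ℕ∞) ≤ 1 := h3.trans h4
  exact absurd h5 (by decide)

theorem DistThree.one {V : Type} {G H : SimpleGraph V} (h : DistThree G H) :
    ∀ x u u' w w', G.Adj x u → H.Adj u u' → G.Adj x w → H.Adj w w' → s(u, u') = s(w, w') := by
  intro x u u' w w' hxu hu hxw hw
  by_contra hne
  have h3 := h.2.2 u u' w w' hu hw hne
  have h4 : G.edist u w ≤ 2 := by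
    have := SimpleGraph.edist_le (SimpleGraph.Walk.cons hxu.symm
      (SimpleGraph.Walk.cons hxw SimpleGraph.Walk.nil))
    simpa using this
  have h5 : (3 : ℕ∞) ≤ 2 := h3.trans h4
  exact absurd h5 (by decide)

theorem to_nat {V : Type} {H : SimpleGraph V} {k : ℕ} {f0 : V → Fin k} {g0 : Sym2 V → Fin k}
    (h0 : IsTotal H f0 g0) : IsTot H (fun v => (f0 v).1) (fun z => (g0 z).1) :=
  ⟨fun u v h he => h0.1 u v h (Fin.ext he), fun u v w h h' hne he =>
    h0.2.1 u v w h h' hne (Fin.ext he), fun u v h he => h0.2.2 u v h (Fin.ext he)⟩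

theorem to_fin {V : Type} {G H : SimpleGraph V} {k : ℕ} (f0 : V → Fin k) (g0 : Sym2 V → Fin k)
    (h : ∃ (f : V → ℕ) (g : Sym2 V → ℕ), IsTot G f g ∧
      (∀ u v, H.Adj u v → f u = (f0 u).1 ∧ g s(u, v) = (g0 s(u, v)).1) ∧
      (∀ v, (∀ w, ¬ H.Adj v w) → f v < k) ∧
      ∀ u v, G.Adj u v → ¬ H.Adj u v → g s(u, v) ∈ Finset.range k) :
    ∃ (f : V → Fin k) (g : Sym2 V → Fin k), IsTotal G f g ∧
      ∀ u v, H.Adj u v → f u = f0 u ∧ g s(u, v) = g0 s(u, v) := by
  classical
  obtain ⟨f, g, ⟨h1, h2, h3⟩, h4, h5, h6⟩ := h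
  have hf : ∀ v, f v < k := by
    intro v
    by_cases hv : ∃ x, H.Adj v x
    · obtain ⟨x, hx⟩ := hv
      rw [(h4 v x hx).1]
      exact (f0 v).2
    · push Not at hv
      exact h5 v hv
  have hg : ∀ u v, G.Adj u v → g s(u, v) < k := by
    intro u v huv
    by_cases hH : H.Adj u v
    · rw [(h4 u v hH).2]
      exact (g0 _).2
    · exact Finset.mem_range.1 (h6 u v huv hH)
  refine ⟨fun v => ⟨f v, hf v⟩, fun z => if h : g z < k then ⟨g z, h⟩ else g0 z, ⟨?_, ?_, ?_⟩, ?_⟩
  · intro u v huv he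
    exact h1 u v huv (Fin.mk.inj_iff.1 he)
  · intro u v w huv huw hne he
    simp only [dif_pos (hg u v huv), dif_pos (hg u w huw)] at he
    exact h2 u v w huv huw hne (Fin.mk.inj_iff.1 he)
  · intro u v huv he
    simp only [dif_pos (hg u v huv)] at he
    exact h3 u v huv (Fin.mk.inj_iff.1 he)
  · intro u v huv
    obtain ⟨h7, h8⟩ := h4 u v huv
    refine ⟨Fin.ext h7, ?_⟩
    have h9 : g s(u, v) < k := by rw [h8]; exact (g0 _).2
    simp only [dif_pos h9]
    exact Fin.ext h8

/-- Let `G` be a finite graph whose degrees are at most `Δ`, and let `H` be a distance-3 matching of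
`G`.  Let `F` be a set of edges outside `H` such that `F` and `H` together form a matching which
covers all vertices of degree `Δ`, and such that the edges outside `F` and `H` form a bipartite graph.
Suppose that for all adjacent near vertices `x`, `y` (definition `Near`) the edge `xy` is not in `F`
and no neighbour of `x` is a vertex of degree `Δ` on an edge of `H`.  Then every total colouring of
`H` with `Δ + 2` colours extends to a total colouring of `G` with `Δ + 2` colours. -/
theorem result {V : Type} [Fintype V] (G H F : SimpleGraph V) (X : Set V) (Δ : ℕ)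
    (hΔ : ∀ v, (G.neighborSet v).ncard ≤ Δ) (hH : DistThree G H) (hF : F ≤ G \ H)
    (hM : ∀ u v w, (F.Adj u v ∨ H.Adj u v) → (F.Adj u w ∨ H.Adj u w) → v = w)
    (hcov : ∀ v, (G.neighborSet v).ncard = Δ → ∃ w, F.Adj v w ∨ H.Adj v w)
    (hX : ∀ u v, G.Adj u v → ¬ H.Adj u v → ¬ F.Adj u v → (u ∈ X ↔ v ∉ X))
    (hnear : ∀ x y, G.Adj x y → Near G H F x → Near G H F y →
      ¬ F.Adj x y ∧ ∀ u u', G.Adj x u → H.Adj u u' → (G.neighborSet u).ncard ≠ Δ) :
    Extends G H (Δ + 2) := by
  intro f0 g0 h0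
  exact to_fin f0 g0 (plus G H F (fun v => v ∈ X) Δ hΔ hH.1 hH.hind hH.one hF hM
    (fun u v huv hn => hX u v huv.1 huv.2 hn) hcov
    (fun x y hxy h1 h2 h3 h4 => hnear x y hxy ⟨h1, h3⟩ ⟨h2, h4⟩) (fun v => (f0 v).1)
    (fun z => (g0 z).1) (to_nat h0) (fun u v _ => (g0 s(u, v)).2))

end Pool.Agent.Results.MP_db9399_co.BipartitePlusMatching
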